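import Mathlib

set_option autoImplicit false

/-!
# A function in `A^∞(B)` with natural boundary on every affine disc

For every `n ≥ 2` we construct `f ∈ A^∞(B)` such that for every affine disc `Φ(λ) = a + λ b`,
`b ≠ 0`, `Φ(T) ⊂ S`, the function `f ∘ Φ` has the unit circle as its natural boundary.

Construction: `f(z) = ∑ exp(-s_k) ⟨z, ζ_k⟩^{s_k^2}`, `s_k = (k+1)!`, with `ζ_k` running infinitely often
through a dense sequence in the sphere. If `f ∘ Φ` continues across `τ`, then, by a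
two-constants (overconvergence) argument, the partial sums converge at points `(1+s)τ` outside the
closed disc, while the terms with `ζ_k` near `Φ(τ)` blow up there.
-/

namespace Pool.Agent.Results.MP_ca9574_an.NaturalBoundary

open Metric Set Filter Topology

/-- `f ∈ A^∞(B)`: `f` is holomorphic in the open ball and all its derivatives (of every order)
extend continuously to the closed ball. -/
def IsAInfty {n : ℕ} (f : EuclideanSpace ℂ (Fin n) → ℂ) : Prop :=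
  DifferentiableOn ℂ f (ball 0 1) ∧
  ∀ N : ℕ, ∃ g : EuclideanSpace ℂ (Fin n) →
      ContinuousMultilinearMap ℂ (fun _ : Fin N => EuclideanSpace ℂ (Fin n)) ℂ,
    ContinuousOn g (closedBall 0 1) ∧ ∀ z ∈ ball (0 : EuclideanSpace ℂ (Fin n)) 1,
      g z = iteratedFDeriv ℂ N f z

/-- Property (NB): for every nonconstant affine `Φ(λ) = a + λ b` mapping the unit circle into the
unit sphere, `f ∘ Φ` has no holomorphic continuation across any point of the circle. -/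
def HasNB {n : ℕ} (f : EuclideanSpace ℂ (Fin n) → ℂ) : Prop :=
  ∀ a b : EuclideanSpace ℂ (Fin n), b ≠ 0 →
    (∀ l : ℂ, ‖l‖ = 1 → ‖a + l • b‖ = 1) →
    ∀ τ : ℂ, ‖τ‖ = 1 → ¬ ∃ r : ℝ, 0 < r ∧ ∃ h : ℂ → ℂ, DifferentiableOn ℂ h (ball τ r) ∧
      ∀ l ∈ ball τ r ∩ ball (0 : ℂ) 1, h l = f (a + l • b)

/-! ### The sequences -/

/-- `s_k = (k+1)!` -/
def s (k : ℕ) : ℕ := (k + 1).factorial

/-- `m_k = s_k^2` -/
def m (k : ℕ) : ℕ := s k ^ 2

lemma s_strictMono : StrictMono s := by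
  apply strictMono_nat_of_lt_succ
  intro k
  unfold s
  have h1 : 0 < (k + 1).factorial := Nat.factorial_pos _
  have h2 : (k + 1 + 1).factorial = (k + 2) * (k + 1).factorial := Nat.factorial_succ _
  rw [h2]; nlinarith

lemma le_s (k : ℕ) : k ≤ s k := s_strictMono.le_apply

lemma s_pos (k : ℕ) : 1 ≤ s k := Nat.factorial_pos _

lemma s_le_m (k : ℕ) : s k ≤ m k := by unfold m; nlinarith [s_pos k]

lemma le_m (k : ℕ) : k ≤ m k := (le_s k).trans (s_le_m k)

lemma m_strictMono : StrictMono m := by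
  intro i j hij
  have := s_strictMono hij
  unfold m
  exact Nat.pow_lt_pow_left this (by norm_num)

lemma m_succ (k : ℕ) : m (k + 1) = (k + 2) ^ 2 * m k := by
  unfold m s
  rw [Nat.factorial_succ (k + 1)]; ring

lemma m_add (k j : ℕ) : m k + j ≤ m (k + j) := by
  induction j with
  | zero => simp
  | succ j ih =>
    have h1 : m (k + j) < m (k + (j + 1)) := m_strictMono (by omega)
    omega

lemma summable_bound (N : ℕ) : Summable (fun k => Real.exp (-(s k : ℝ)) * (m k : ℝ) ^ N) := by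
  have h := Real.summable_pow_mul_exp_neg_nat_mul (2 * N) one_pos
  have h2 := h.comp_injective s_strictMono.injective
  refine h2.congr fun k => ?_
  simp only [Function.comp, m]
  push_cast
  rw [← pow_mul, mul_comm]
  congr 2
  ring

/-! ### The function -/

variable {n : ℕ}

/-- the terms -/
noncomputable def term (ζ : ℕ → EuclideanSpace ℂ (Fin n)) (k : ℕ) (z : EuclideanSpace ℂ (Fin n)) : ℂ :=
  (Real.exp (-(s k : ℝ)) : ℂ) * (inner ℂ (ζ k) z) ^ (m k)

/-- the function -/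
noncomputable def F (ζ : ℕ → EuclideanSpace ℂ (Fin n)) (z : EuclideanSpace ℂ (Fin n)) : ℂ :=
  ∑' k, term ζ k z

lemma term_contDiff (ζ : ℕ → EuclideanSpace ℂ (Fin n)) (k : ℕ) : ContDiff ℂ ⊤ (term ζ k) := by
  unfold term
  have : ContDiff ℂ ⊤ (fun z : EuclideanSpace ℂ (Fin n) => inner ℂ (ζ k) z) :=
    (innerSL ℂ (ζ k)).contDiff
  exact contDiff_const.mul (this.pow _)

lemma norm_iteratedFDeriv_pow (M N : ℕ) (x : ℂ) (hx : ‖x‖ ≤ 1) :
    ‖iteratedFDeriv ℂ N (fun x : ℂ => x ^ M) x‖ ≤ (M : ℝ) ^ N := by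
  rw [norm_iteratedFDeriv_eq_norm_iteratedDeriv, iteratedDeriv_pow, norm_mul, norm_pow]
  have h1 : ‖((M.descFactorial N : ℕ) : ℂ)‖ ≤ (M : ℝ) ^ N := by
    rw [Complex.norm_natCast]
    exact_mod_cast Nat.descFactorial_le_pow M N
  have h2 : ‖x‖ ^ (M - N) ≤ 1 := pow_le_one₀ (norm_nonneg _) hx
  calc _ ≤ (M : ℝ) ^ N * 1 := mul_le_mul h1 h2 (by positivity) (by positivity)
    _ = _ := mul_one _

lemma norm_iteratedFDeriv_term (ζ : ℕ → EuclideanSpace ℂ (Fin n)) (hζ : ∀ k, ‖ζ k‖ = 1)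
    (k N : ℕ) (z : EuclideanSpace ℂ (Fin n)) (hz : ‖z‖ ≤ 1) :
    ‖iteratedFDeriv ℂ N (term ζ k) z‖ ≤ Real.exp (-(s k : ℝ)) * (m k : ℝ) ^ N := by
  have e1 : term ζ k = (Real.exp (-(s k : ℝ)) : ℂ) •
      ((fun x : ℂ => x ^ (m k)) ∘ (innerSL ℂ (ζ k))) := by
    funext z; simp [term]
  have hcd : ContDiff ℂ ⊤ (fun x : ℂ => x ^ (m k)) := contDiff_id.pow _
  have hcd2 : ContDiff ℂ ⊤ ((fun x : ℂ => x ^ (m k)) ∘ (innerSL ℂ (ζ k))) :=
    hcd.comp (innerSL ℂ (ζ k)).contDiff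
  rw [e1]
  have e2 : iteratedFDeriv ℂ N ((Real.exp (-(s k : ℝ)) : ℂ) •
      ((fun x : ℂ => x ^ (m k)) ∘ (innerSL ℂ (ζ k)))) z =
      (Real.exp (-(s k : ℝ)) : ℂ) • iteratedFDeriv ℂ N
        ((fun x : ℂ => x ^ (m k)) ∘ (innerSL ℂ (ζ k))) z :=
    iteratedFDeriv_const_smul_apply ((hcd2.of_le le_top).contDiffAt)
  rw [e2, norm_smul]
  have h0 : ‖((Real.exp (-(s k : ℝ)) : ℝ) : ℂ)‖ = Real.exp (-(s k : ℝ)) := by
    rw [Complex.norm_real, Real.norm_of_nonneg (Real.exp_pos _).le]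
  rw [h0]
  refine mul_le_mul_of_nonneg_left ?_ (Real.exp_pos _).le
  rw [ContinuousLinearMap.iteratedFDeriv_comp_right (innerSL ℂ (ζ k)) hcd z (i := N) le_top]
  refine (ContinuousMultilinearMap.norm_compContinuousLinearMap_le _ _).trans ?_
  have h1 : ∏ i : Fin N, ‖innerSL ℂ (ζ k)‖ = 1 := by
    simp [innerSL_apply_norm, hζ k]
  rw [h1, mul_one]
  apply norm_iteratedFDeriv_pow
  simp only [innerSL_apply_apply]
  calc _ ≤ ‖ζ k‖ * ‖z‖ := norm_inner_le_norm _ _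
    _ ≤ 1 := by rw [hζ k, one_mul]; exact hz

/-- The derivatives of the sum. -/
lemma iteratedFDeriv_F (ζ : ℕ → EuclideanSpace ℂ (Fin n)) (hζ : ∀ k, ‖ζ k‖ = 1) (N : ℕ) :
    ∀ z ∈ ball (0 : EuclideanSpace ℂ (Fin n)) 1,
      iteratedFDeriv ℂ N (F ζ) z = ∑' k, iteratedFDeriv ℂ N (term ζ k) z := by
  induction N with
  | zero =>
    intro z hz
    simp_rw [iteratedFDeriv_zero_eq_comp]
    exact (continuousMultilinearCurryFin0 ℂ (EuclideanSpace ℂ (Fin n))
      ℂ).symm.toContinuousLinearEquiv.map_tsum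
  | succ N ih =>
    intro z hz
    have hball : IsOpen (ball (0 : EuclideanSpace ℂ (Fin n)) 1) := isOpen_ball
    have hpre : IsPreconnected (ball (0 : EuclideanSpace ℂ (Fin n)) 1) :=
      (convex_ball _ _).isPreconnected
    have hd : ∀ k, ∀ x ∈ ball (0 : EuclideanSpace ℂ (Fin n)) 1,
        HasFDerivAt (iteratedFDeriv ℂ N (term ζ k)) (fderiv ℂ (iteratedFDeriv ℂ N (term ζ k)) x) x := by
      intro k x _
      exact ((term_contDiff ζ k).differentiable_iteratedFDeriv (m := N)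
        (by exact_mod_cast WithTop.coe_lt_top _) x).hasFDerivAt
    have hb : ∀ k, ∀ x ∈ ball (0 : EuclideanSpace ℂ (Fin n)) 1,
        ‖fderiv ℂ (iteratedFDeriv ℂ N (term ζ k)) x‖ ≤ Real.exp (-(s k : ℝ)) * (m k : ℝ) ^ (N + 1) := by
      intro k x hx
      rw [norm_fderiv_iteratedFDeriv]
      exact norm_iteratedFDeriv_term ζ hζ k (N + 1) x (by simpa using (mem_ball_zero_iff.1 hx).le)
    have hs : Summable (fun k => iteratedFDeriv ℂ N (term ζ k) z) := by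
      refine Summable.of_norm_bounded (summable_bound N) fun k => ?_
      exact norm_iteratedFDeriv_term ζ hζ k N z (by simpa using (mem_ball_zero_iff.1 hz).le)
    have key := hasFDerivAt_tsum_of_isPreconnected (summable_bound (N + 1)) hball hpre hd hb hz hs hz
    have hEq : iteratedFDeriv ℂ N (F ζ) =ᶠ[𝓝 z] fun x => ∑' k, iteratedFDeriv ℂ N (term ζ k) x :=
      Filter.eventuallyEq_of_mem (hball.mem_nhds hz) ih
    rw [iteratedFDeriv_succ_eq_comp_left, Function.comp_apply, hEq.fderiv_eq, key.fderiv]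
    have h3 : ∀ k, iteratedFDeriv ℂ (N + 1) (term ζ k) z =
        (continuousMultilinearCurryLeftEquiv ℂ (fun _ => EuclideanSpace ℂ (Fin n)) ℂ).symm
          (fderiv ℂ (iteratedFDeriv ℂ N (term ζ k)) z) := by
      intro k; rw [iteratedFDeriv_succ_eq_comp_left]; rfl
    simp_rw [h3]
    exact ContinuousLinearEquiv.map_tsum
      (continuousMultilinearCurryLeftEquiv ℂ (fun _ => EuclideanSpace ℂ (Fin n))
        ℂ).symm.toContinuousLinearEquiv

lemma continuousOn_tsum_deriv (ζ : ℕ → EuclideanSpace ℂ (Fin n)) (hζ : ∀ k, ‖ζ k‖ = 1) (N : ℕ) :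
    ContinuousOn (fun z => ∑' k, iteratedFDeriv ℂ N (term ζ k) z)
      (closedBall (0 : EuclideanSpace ℂ (Fin n)) 1) := by
  refine continuousOn_tsum (fun k => ?_) (summable_bound N) (fun k z hz => ?_)
  · exact ((term_contDiff ζ k).continuous_iteratedFDeriv (m := N) le_top).continuousOn
  · exact norm_iteratedFDeriv_term ζ hζ k N z (by simpa using hz)

lemma norm_term_le (ζ : ℕ → EuclideanSpace ℂ (Fin n)) (hζ : ∀ k, ‖ζ k‖ = 1) (k : ℕ)
    (z : EuclideanSpace ℂ (Fin n)) : ‖term ζ k z‖ ≤ Real.exp (-(s k : ℝ)) * ‖z‖ ^ (m k) := by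
  unfold term
  rw [norm_mul, Complex.norm_real, Real.norm_of_nonneg (Real.exp_pos _).le, norm_pow]
  refine mul_le_mul_of_nonneg_left ?_ (Real.exp_pos _).le
  refine pow_le_pow_left₀ (norm_nonneg _) ?_ _
  calc _ ≤ ‖ζ k‖ * ‖z‖ := norm_inner_le_norm _ _
    _ = _ := by rw [hζ k, one_mul]

lemma summable_term (ζ : ℕ → EuclideanSpace ℂ (Fin n)) (hζ : ∀ k, ‖ζ k‖ = 1)
    (z : EuclideanSpace ℂ (Fin n)) (hz : ‖z‖ ≤ 1) : Summable (fun k => term ζ k z) := by
  refine Summable.of_norm_bounded (summable_bound 0) fun k => ?_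
  refine (norm_term_le ζ hζ k z).trans ?_
  refine mul_le_mul_of_nonneg_left ?_ (Real.exp_pos _).le
  simpa using pow_le_one₀ (norm_nonneg _) hz

lemma continuousOn_F (ζ : ℕ → EuclideanSpace ℂ (Fin n)) (hζ : ∀ k, ‖ζ k‖ = 1) :
    ContinuousOn (F ζ) (closedBall (0 : EuclideanSpace ℂ (Fin n)) 1) := by
  refine continuousOn_tsum (fun k => (term_contDiff ζ k).continuous.continuousOn) (summable_bound 0)
    (fun k z hz => ?_)
  refine (norm_term_le ζ hζ k z).trans ?_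
  refine mul_le_mul_of_nonneg_left ?_ (Real.exp_pos _).le
  simpa using pow_le_one₀ (norm_nonneg _) (by simpa using hz)

lemma differentiableOn_F (ζ : ℕ → EuclideanSpace ℂ (Fin n)) (hζ : ∀ k, ‖ζ k‖ = 1) :
    DifferentiableOn ℂ (F ζ) (ball (0 : EuclideanSpace ℂ (Fin n)) 1) := by
  have hball : IsOpen (ball (0 : EuclideanSpace ℂ (Fin n)) 1) := isOpen_ball
  have hpre : IsPreconnected (ball (0 : EuclideanSpace ℂ (Fin n)) 1) :=
    (convex_ball _ _).isPreconnected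
  intro z hz
  have hb : ∀ k, ∀ x ∈ ball (0 : EuclideanSpace ℂ (Fin n)) 1,
      ‖fderiv ℂ (term ζ k) x‖ ≤ Real.exp (-(s k : ℝ)) * (m k : ℝ) ^ 1 := by
    intro k x hx
    have h1 := norm_iteratedFDeriv_term ζ hζ k 1 x (by simpa using (mem_ball_zero_iff.1 hx).le)
    rwa [norm_iteratedFDeriv_one] at h1
  have key := hasFDerivAt_tsum_of_isPreconnected (f := term ζ) (f' := fun k => fderiv ℂ (term ζ k))
    (summable_bound 1) hball hpre
    (fun k x _ => (((term_contDiff ζ k).differentiable (by simp)) x).hasFDerivAt) hb hz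
    (summable_term ζ hζ z (by simpa using (mem_ball_zero_iff.1 hz).le)) hz
  exact key.differentiableAt.differentiableWithinAt

lemma isAInfty_F (ζ : ℕ → EuclideanSpace ℂ (Fin n)) (hζ : ∀ k, ‖ζ k‖ = 1) : IsAInfty (F ζ) := by
  refine ⟨differentiableOn_F ζ hζ, fun N => ⟨fun z => ∑' k, iteratedFDeriv ℂ N (term ζ k) z,
    continuousOn_tsum_deriv ζ hζ N, fun z hz => (iteratedFDeriv_F ζ hζ N z hz).symm⟩⟩

/-! ### Affine discs -/

section disc

variable {a b : EuclideanSpace ℂ (Fin n)}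

lemma norm_sq_disc (hΦ : ∀ l : ℂ, ‖l‖ = 1 → ‖a + l • b‖ = 1) :
    inner ℂ a b = 0 ∧ ‖a‖ ^ 2 + ‖b‖ ^ 2 = 1 := by
  have h1 := hΦ 1 (by simp)
  have h2 := hΦ (-1) (by simp)
  have h3 := hΦ Complex.I (by simp)
  have h4 := hΦ (-Complex.I) (by simp)
  have e1 := @norm_add_sq ℂ _ _ _ _ a ((1 : ℂ) • b)
  have e2 := @norm_add_sq ℂ _ _ _ _ a ((-1 : ℂ) • b)
  have e3 := @norm_add_sq ℂ _ _ _ _ a (Complex.I • b)
  have e4 := @norm_add_sq ℂ _ _ _ _ a ((-Complex.I) • b)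
  rw [h1, inner_smul_right, norm_smul] at e1
  rw [h2, inner_smul_right, norm_smul] at e2
  rw [h3, inner_smul_right, norm_smul] at e3
  rw [h4, inner_smul_right, norm_smul] at e4
  simp at e1 e2 e3 e4
  refine ⟨?_, by linarith⟩
  apply Complex.ext
  · simp; linarith
  · simp; linarith

lemma norm_disc (hΦ : ∀ l : ℂ, ‖l‖ = 1 → ‖a + l • b‖ = 1) (l : ℂ) :
    ‖a + l • b‖ ^ 2 = ‖a‖ ^ 2 + ‖l‖ ^ 2 * ‖b‖ ^ 2 := by
  rw [@norm_add_sq ℂ _ _ _ _ a (l • b), inner_smul_right, (norm_sq_disc hΦ).1, norm_smul]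
  simp; ring

lemma norm_disc_lt (hb : b ≠ 0) (hΦ : ∀ l : ℂ, ‖l‖ = 1 → ‖a + l • b‖ = 1) {l : ℂ} (hl : ‖l‖ < 1) :
    ‖a + l • b‖ < 1 := by
  have h1 := norm_disc hΦ l
  have h2 := (norm_sq_disc hΦ).2
  have h3 : 0 < ‖b‖ := norm_pos_iff.2 hb
  have h4 : ‖l‖ ^ 2 < 1 := by nlinarith [norm_nonneg l]
  have h5 : ‖a + l • b‖ ^ 2 < 1 := by nlinarith [mul_pos h3 h3]
  nlinarith [norm_nonneg (a + l • b)]

lemma exists_q (hb : b ≠ 0) (hΦ : ∀ l : ℂ, ‖l‖ = 1 → ‖a + l • b‖ = 1) :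
    ∃ q : ℝ, 0 < q ∧ q < 1 ∧ ∀ l : ℂ, ‖l‖ ≤ 1 / 2 → ‖a + l • b‖ ≤ q := by
  have h2 := (norm_sq_disc hΦ).2
  have h3 : 0 < ‖b‖ := norm_pos_iff.2 hb
  have hpos : 0 < ‖a‖ ^ 2 + ‖b‖ ^ 2 / 4 := by positivity
  refine ⟨Real.sqrt (‖a‖ ^ 2 + ‖b‖ ^ 2 / 4), Real.sqrt_pos.2 hpos, ?_, ?_⟩
  · rw [Real.sqrt_lt' one_pos]; nlinarith [mul_pos h3 h3]
  · intro l hl
    apply Real.le_sqrt_of_sq_le
    rw [norm_disc hΦ l]
    have : ‖l‖ ^ 2 ≤ 1 / 4 := by nlinarith [norm_nonneg l]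
    nlinarith [mul_pos h3 h3]

/-- partial sums along the disc -/
noncomputable def S (ζ : ℕ → EuclideanSpace ℂ (Fin n)) (a b : EuclideanSpace ℂ (Fin n)) (k : ℕ)
    (l : ℂ) : ℂ :=
  ∑ i ∈ Finset.range (k + 1), term ζ i (a + l • b)

lemma differentiable_S (ζ : ℕ → EuclideanSpace ℂ (Fin n)) (k : ℕ) :
    Differentiable ℂ (S ζ a b k) := by
  unfold S
  refine Differentiable.fun_sum fun i _ => ?_
  exact ((term_contDiff ζ i).differentiable (by simp)).comp (by fun_prop)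

lemma norm_sub_S_le (ζ : ℕ → EuclideanSpace ℂ (Fin n)) (hζ : ∀ k, ‖ζ k‖ = 1) {q : ℝ} (hq0 : 0 < q)
    (hq1 : q < 1) {l : ℂ} (hl : ‖a + l • b‖ ≤ q) (k : ℕ) :
    ‖F ζ (a + l • b) - S ζ a b k l‖ ≤ (1 - q)⁻¹ * q ^ (m (k + 1)) := by
  have hs := summable_term ζ hζ (a + l • b) (hl.trans hq1.le)
  have h1 : F ζ (a + l • b) - S ζ a b k l = ∑' i, term ζ (i + (k + 1)) (a + l • b) := by
    unfold F S
    rw [← hs.sum_add_tsum_nat_add (k + 1)]; ring
  rw [h1]
  have hg : HasSum (fun i : ℕ => q ^ (m (k + 1)) * q ^ i) (q ^ (m (k + 1)) * (1 - q)⁻¹) :=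
    (hasSum_geometric_of_lt_one hq0.le hq1).mul_left _
  rw [mul_comm]
  refine tsum_of_norm_bounded hg fun i => ?_
  refine (norm_term_le ζ hζ _ _).trans ?_
  have he : Real.exp (-(s (i + (k + 1)) : ℝ)) ≤ 1 := by
    rw [Real.exp_le_one_iff]; simp
  calc Real.exp (-(s (i + (k + 1)) : ℝ)) * ‖a + l • b‖ ^ m (i + (k + 1))
      ≤ 1 * ‖a + l • b‖ ^ m (i + (k + 1)) := by gcongr
    _ = ‖a + l • b‖ ^ m (i + (k + 1)) := one_mul _
    _ ≤ q ^ m (i + (k + 1)) := by gcongr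
    _ ≤ q ^ (m (k + 1) + i) := by
        apply pow_le_pow_of_le_one hq0.le hq1.le
        have := m_add (k + 1) i
        rwa [add_comm (k + 1) i] at this
    _ = _ := pow_add _ _ _

lemma norm_S_le (ζ : ℕ → EuclideanSpace ℂ (Fin n)) (hζ : ∀ k, ‖ζ k‖ = 1) {Λ : ℝ} (hΛ : 1 ≤ Λ)
    {l : ℂ} (hl : ‖a + l • b‖ ≤ Λ) (k : ℕ) :
    ‖S ζ a b k l‖ ≤ (2 * Λ) ^ (m k) := by
  unfold S
  have h1 : ∀ i ∈ Finset.range (k + 1), ‖term ζ i (a + l • b)‖ ≤ Λ ^ (m k) := by
    intro i hi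
    refine (norm_term_le ζ hζ _ _).trans ?_
    have he : Real.exp (-(s i : ℝ)) ≤ 1 := by
      rw [Real.exp_le_one_iff]; simp
    calc Real.exp (-(s i : ℝ)) * ‖a + l • b‖ ^ m i ≤ 1 * ‖a + l • b‖ ^ m i := by gcongr
      _ = ‖a + l • b‖ ^ m i := one_mul _
      _ ≤ Λ ^ m i := by gcongr
      _ ≤ Λ ^ m k := pow_le_pow_right₀ hΛ (m_strictMono.monotone (by
          rw [Finset.mem_range] at hi; omega))
  refine (norm_sum_le_of_le _ h1).trans ?_
  rw [Finset.sum_const, Finset.card_range, nsmul_eq_mul, mul_pow]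
  refine mul_le_mul_of_nonneg_right ?_ (by positivity)
  have h2 : k + 1 ≤ 2 ^ (m k) := by
    calc k + 1 ≤ 2 ^ k := Nat.lt_two_pow_self
      _ ≤ 2 ^ (m k) := Nat.pow_le_pow_right (by norm_num) (le_m k)
  exact_mod_cast h2

end disc

/-- The elementary limit behind the overconvergence. -/
lemma tendsto_bound {A x y : ℝ} (hA : 0 ≤ A) (hx0 : 0 < x) (hx1 : x < 1) (hy : 0 < y) :
    Tendsto (fun k : ℕ => A * (x ^ (m (k + 1)) * y ^ (m k))) atTop (𝓝 0) := by
  have h1 : Tendsto (fun k : ℕ => x ^ (k + 2) * y) atTop (𝓝 0) := by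
    have := ((tendsto_pow_atTop_nhds_zero_of_lt_one hx0.le hx1).comp
      (tendsto_add_atTop_nat 2)).mul_const y
    simpa using this
  have h2 : ∀ᶠ k : ℕ in atTop, x ^ (k + 2) * y ≤ 1 / 2 :=
    h1.eventually (eventually_le_nhds (by norm_num))
  have h3 : Tendsto (fun k : ℕ => A * (1 / 2 : ℝ) ^ k) atTop (𝓝 0) := by
    have := (tendsto_pow_atTop_nhds_zero_of_lt_one (r := (1 / 2 : ℝ)) (by norm_num)
      (by norm_num)).const_mul A
    simpa using this
  refine squeeze_zero' (Eventually.of_forall fun k => by positivity) ?_ h3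
  filter_upwards [h2] with k hk
  refine mul_le_mul_of_nonneg_left ?_ hA
  calc x ^ (m (k + 1)) * y ^ (m k) ≤ x ^ ((k + 2) * m k) * y ^ (m k) := by
        refine mul_le_mul_of_nonneg_right ?_ (by positivity)
        apply pow_le_pow_of_le_one hx0.le hx1.le
        rw [m_succ]
        exact Nat.mul_le_mul_right _ (by nlinarith)
    _ = (x ^ (k + 2) * y) ^ (m k) := by rw [pow_mul, mul_pow]
    _ ≤ (1 / 2 : ℝ) ^ (m k) := by gcongr
    _ ≤ (1 / 2 : ℝ) ^ k := pow_le_pow_of_le_one (by norm_num) (by norm_num) (le_m k)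

/-! ### The substitution `w ↦ τ (w + w^2) / 2` -/

/-- the substitution -/
noncomputable def ψ (τ w : ℂ) : ℂ := τ * ((w + w ^ 2) / 2)

lemma differentiable_ψ (τ : ℂ) : Differentiable ℂ (ψ τ) := by
  unfold ψ; fun_prop

lemma ψ_mem {τ : ℂ} (hτ : ‖τ‖ = 1) {r : ℝ} (hr : 0 < r) {w : ℂ} (hw : ‖w‖ ≤ 1) :
    ψ τ w ∈ ball (0 : ℂ) 1 ∪ ball τ r := by
  by_cases h1 : w = 1
  · right
    subst h1
    have : ψ τ 1 = τ := by unfold ψ; norm_num
    rw [this]; exact mem_ball_self hr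
  · left
    rw [mem_ball_zero_iff]
    unfold ψ
    rw [norm_mul, hτ, one_mul, norm_div]
    have e : w + w ^ 2 = w * (1 + w) := by ring
    rw [e, norm_mul]
    have hre : w.re < 1 := by
      by_contra hge
      push Not at hge
      apply h1
      have h2 : ‖w‖ ^ 2 = w.re ^ 2 + w.im ^ 2 := by
        rw [← Complex.normSq_eq_norm_sq, Complex.normSq_apply]; ring
      have h3 : ‖w‖ ^ 2 ≤ 1 := by nlinarith [norm_nonneg w]
      have h4 : w.im ^ 2 ≤ 0 := by nlinarith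
      have h5 : w.im = 0 := by nlinarith [sq_nonneg w.im]
      have h6 : w.re ≤ 1 := by nlinarith
      apply Complex.ext
      · simp; linarith
      · simp [h5]
    have h7 : ‖1 + w‖ ^ 2 < 4 := by
      have h2 : ‖w‖ ^ 2 = w.re ^ 2 + w.im ^ 2 := by
        rw [← Complex.normSq_eq_norm_sq, Complex.normSq_apply]; ring
      have h8 : ‖1 + w‖ ^ 2 = (1 + w.re) ^ 2 + w.im ^ 2 := by
        rw [← Complex.normSq_eq_norm_sq, Complex.normSq_apply]; simp; ring
      have h3 : ‖w‖ ^ 2 ≤ 1 := by nlinarith [norm_nonneg w]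
      rw [h8]; nlinarith
    have h9 : ‖1 + w‖ < 2 := by nlinarith [norm_nonneg (1 + w)]
    have h10 : ‖w‖ * ‖1 + w‖ < 2 := by
      calc ‖w‖ * ‖1 + w‖ ≤ 1 * ‖1 + w‖ := by gcongr
        _ < 2 := by rw [one_mul]; exact h9
    simp only [RCLike.norm_ofNat]
    linarith

/-- Overconvergence: if `F ∘ Φ` continues across `τ`, the terms tend to zero at some point
`(1 + x) τ`, `x > 0`. -/
lemma overconvergence {a b : EuclideanSpace ℂ (Fin n)} (hb : b ≠ 0)
    (hΦ : ∀ l : ℂ, ‖l‖ = 1 → ‖a + l • b‖ = 1)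
    (ζ : ℕ → EuclideanSpace ℂ (Fin n)) (hζ : ∀ k, ‖ζ k‖ = 1)
    {τ : ℂ} (hτ : ‖τ‖ = 1) {r : ℝ} (hr : 0 < r) {h : ℂ → ℂ} (hh : DifferentiableOn ℂ h (ball τ r))
    (heq : ∀ l ∈ ball τ r ∩ ball (0 : ℂ) 1, h l = F ζ (a + l • b)) :
    ∃ x : ℝ, 0 < x ∧
      Tendsto (fun k => term ζ k (a + ((1 + x : ℝ) * τ) • b)) atTop (𝓝 0) := by
  classical
  -- the radius
  set O : Set ℂ := ψ τ ⁻¹' (ball (0 : ℂ) 1 ∪ ball τ r) with hO
  have hOo : IsOpen O := (isOpen_ball.union isOpen_ball).preimage (differentiable_ψ τ).continuous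
  obtain ⟨δ, hδ, hsub⟩ := (isCompact_closedBall (0 : ℂ) 1).exists_cthickening_subset_open hOo
    (fun w hw => ψ_mem hτ hr (by simpa using hw))
  rw [cthickening_closedBall hδ.le zero_le_one] at hsub
  -- the extension
  let gh : ℂ → ℂ := fun l => if l ∈ ball (0 : ℂ) 1 then F ζ (a + l • b) else h l
  have hgh1 : ∀ l ∈ ball (0 : ℂ) 1, gh l = F ζ (a + l • b) := fun l hl => if_pos hl
  have hgh2 : ∀ l ∈ ball τ r, gh l = h l := by
    intro l hl
    by_cases h1 : l ∈ ball (0 : ℂ) 1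
    · rw [hgh1 l h1, heq l ⟨hl, h1⟩]
    · exact if_neg h1
  have hghd : ∀ l ∈ ball (0 : ℂ) 1 ∪ ball τ r, DifferentiableAt ℂ gh l := by
    rintro l (hl | hl)
    · have h1 : DifferentiableAt ℂ (fun l : ℂ => F ζ (a + l • b)) l := by
        have h2 : DifferentiableAt ℂ (F ζ) (a + l • b) := by
          refine (differentiableOn_F ζ hζ).differentiableAt (isOpen_ball.mem_nhds ?_)
          rw [mem_ball_zero_iff]
          exact norm_disc_lt hb hΦ (by simpa using hl)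
        exact DifferentiableAt.comp (g := F ζ) (f := fun l : ℂ => a + l • b) l h2 (by fun_prop)
      refine h1.congr_of_eventuallyEq ?_
      filter_upwards [isOpen_ball.mem_nhds hl] with l' hl' using hgh1 l' hl'
    · refine (hh.differentiableAt (isOpen_ball.mem_nhds hl)).congr_of_eventuallyEq ?_
      filter_upwards [isOpen_ball.mem_nhds hl] with l' hl' using hgh2 l' hl'
  -- the differences
  let G : ℕ → ℂ → ℂ := fun k w => gh (ψ τ w) - S ζ a b k (ψ τ w)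
  have hGd : ∀ k, ∀ w ∈ O, DifferentiableAt ℂ (G k) w := by
    intro k w hw
    exact ((hghd _ hw).comp w (differentiable_ψ τ w)).sub
      (((differentiable_S ζ k) _).comp w (differentiable_ψ τ w))
  have hKO : closedBall (0 : ℂ) (1 + δ) ⊆ O := by rw [add_comm]; exact hsub
  -- bounds
  obtain ⟨q, hq0, hq1, hq⟩ := exists_q hb hΦ
  have hleft : ∀ k, ∀ w : ℂ, ‖w‖ ≤ 1 / 2 → ‖G k w‖ ≤ (1 - q)⁻¹ * q ^ (m (k + 1)) := by
    intro k w hw
    have h1 : ‖ψ τ w‖ ≤ 1 / 2 := by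
      unfold ψ
      rw [norm_mul, hτ, one_mul, norm_div]
      have h2 : ‖w + w ^ 2‖ ≤ 1 / 2 + (1 / 2) ^ 2 := by
        refine (norm_add_le _ _).trans ?_
        rw [norm_pow]; gcongr
      simp only [RCLike.norm_ofNat]
      linarith
    have h3 : G k w = F ζ (a + ψ τ w • b) - S ζ a b k (ψ τ w) := by
      simp only [G]
      rw [hgh1 _ (by rw [mem_ball_zero_iff]; linarith)]
    rw [h3]
    exact norm_sub_S_le ζ hζ hq0 hq1 (hq _ h1) k
  have hcomp : IsCompact (closedBall (0 : ℂ) (1 + δ)) := isCompact_closedBall _ _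
  obtain ⟨M, hM⟩ := hcomp.exists_bound_of_continuousOn (f := fun w => gh (ψ τ w))
    (fun w hw => ((hghd _ (hKO hw)).comp w (differentiable_ψ τ w)).continuousAt.continuousWithinAt)
  obtain ⟨R, hR⟩ := hcomp.exists_bound_of_continuousOn (f := fun w => a + ψ τ w • b)
    (by
      have : Continuous (ψ τ) := (differentiable_ψ τ).continuous
      fun_prop)
  have hM0 : 0 ≤ M := (norm_nonneg _).trans (hM 0 (by simp; positivity))
  set Λ : ℝ := max 1 R with hΛ
  have hΛ1 : 1 ≤ Λ := le_max_left _ _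
  have hright : ∀ k, ∀ w ∈ closedBall (0 : ℂ) (1 + δ), ‖G k w‖ ≤ (M + 1) * (2 * Λ) ^ (m k) := by
    intro k w hw
    have h1 : ‖G k w‖ ≤ M + (2 * Λ) ^ (m k) :=
      (norm_sub_le _ _).trans (add_le_add (hM w hw)
        (norm_S_le ζ hζ hΛ1 ((hR w hw).trans (le_max_right _ _)) k))
    have h2 : (1 : ℝ) ≤ (2 * Λ) ^ (m k) := one_le_pow₀ (by linarith)
    nlinarith
  -- the strip
  set L : ℝ := Real.log (2 * (1 + δ)) with hL
  have hL0 : 0 < L := Real.log_pos (by linarith)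
  have hexpL : Real.exp L = 2 * (1 + δ) := Real.exp_log (by linarith)
  let e : ℂ → ℂ := fun u => (1 / 2 : ℂ) * Complex.exp (u * L)
  have hed : Differentiable ℂ e := by fun_prop
  have hen : ∀ u : ℂ, ‖e u‖ = 1 / 2 * Real.exp (u.re * L) := by
    intro u
    simp only [e]
    rw [norm_mul, Complex.norm_exp]
    simp
  have heK : ∀ u ∈ Complex.HadamardThreeLines.verticalClosedStrip 0 1,
      e u ∈ closedBall (0 : ℂ) (1 + δ) := by
    intro u hu
    rw [mem_closedBall_zero_iff, hen]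
    have h1 : u.re ≤ 1 := hu.2
    have h2 : Real.exp (u.re * L) ≤ Real.exp L := Real.exp_le_exp.2 (by nlinarith)
    rw [hexpL] at h2
    linarith
  have hstrip : ∀ k, ∀ t : ℝ, 0 < t → t < 1 →
      ‖G k (e t)‖ ≤ ((1 - q)⁻¹ * q ^ (m (k + 1))) ^ (1 - t) * ((M + 1) * (2 * Λ) ^ (m k)) ^ t := by
    intro k t ht0 ht1
    have hclos : closure (Complex.HadamardThreeLines.verticalStrip 0 1) ⊆
        Complex.HadamardThreeLines.verticalClosedStrip 0 1 := by
      apply closure_minimal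
      · exact preimage_mono Ioo_subset_Icc_self
      · exact isClosed_Icc.preimage Complex.continuous_re
    have h := Complex.HadamardThreeLines.norm_le_interp_of_mem_verticalClosedStrip'
      (f := fun u => G k (e u)) (z := (t : ℂ)) (a := (1 - q)⁻¹ * q ^ (m (k + 1)))
      (b := (M + 1) * (2 * Λ) ^ (m k)) (l := 0) (u := 1) one_pos
      ⟨by simpa using ht0.le, by simpa using ht1.le⟩ ?_ ?_ ?_ ?_
    · simpa using h
    · refine DifferentiableOn.diffContOnCl fun u hu => ?_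
      exact ((hGd k _ (hKO (heK u (hclos hu)))).comp u (hed u)).differentiableWithinAt
    · refine ⟨(M + 1) * (2 * Λ) ^ (m k), ?_⟩
      rintro _ ⟨u, hu, rfl⟩
      exact hright k _ (heK u hu)
    · intro u hu
      refine hleft k _ ?_
      rw [hen]
      have : u.re = 0 := hu
      rw [this]; simp
    · intro u hu
      refine hright k _ (heK u ?_)
      have : u.re = 1 := hu
      exact ⟨by rw [this]; exact zero_le_one, this.le⟩
  -- the evaluation point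
  set w : ℝ := 1 + δ / 2 with hw
  set t : ℝ := Real.log (2 * w) / L with ht
  have hw1 : 1 < w := by rw [hw]; linarith
  have ht0 : 0 < t := div_pos (Real.log_pos (by linarith)) hL0
  have ht1 : t < 1 := by
    rw [ht, div_lt_one hL0]
    exact Real.log_lt_log (by linarith) (by rw [hw]; linarith)
  have het : e t = (w : ℂ) := by
    simp only [e]
    have h1 : (t : ℂ) * (L : ℂ) = ((Real.log (2 * w) : ℝ) : ℂ) := by
      rw [ht]; push_cast
      field_simp [hL0.ne']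
    rw [h1, ← Complex.ofReal_exp, Real.exp_log (by linarith)]
    push_cast; ring
  refine ⟨(w + w ^ 2) / 2 - 1, by nlinarith, ?_⟩
  have hψw : ψ τ w = ((1 + ((w + w ^ 2) / 2 - 1) : ℝ) : ℂ) * τ := by
    unfold ψ; push_cast; ring
  -- `G k w → 0`
  have hx0 : 0 < q ^ (1 - t) := Real.rpow_pos_of_pos hq0 _
  have hx1 : q ^ (1 - t) < 1 := Real.rpow_lt_one hq0.le hq1 (by linarith)
  have hy : 0 < (2 * Λ) ^ t := Real.rpow_pos_of_pos (by linarith) _
  have hGlim : Tendsto (fun k => G k w) atTop (𝓝 0) := by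
    have h1 : 0 ≤ (1 - q)⁻¹ := inv_nonneg.2 (by linarith)
    have hb := tendsto_bound (A := ((1 - q)⁻¹) ^ (1 - t) * (M + 1) ^ t) (by positivity) hx0 hx1 hy
    refine squeeze_zero_norm (fun k => ?_) hb
    have h2 := hstrip k t ht0 ht1
    rw [het] at h2
    refine h2.trans (le_of_eq ?_)
    rw [Real.mul_rpow h1 (by positivity), Real.mul_rpow (by linarith) (by positivity),
      ← Real.rpow_natCast q, ← Real.rpow_mul hq0.le, mul_comm ((m (k + 1) : ℕ) : ℝ),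
      Real.rpow_mul hq0.le, Real.rpow_natCast,
      ← Real.rpow_natCast (2 * Λ), ← Real.rpow_mul (by linarith), mul_comm ((m k : ℕ) : ℝ),
      Real.rpow_mul (by linarith), Real.rpow_natCast]
    ring
  have h3 : Tendsto (fun k => G k w - G (k + 1) w) atTop (𝓝 0) := by
    have := hGlim.sub (hGlim.comp (tendsto_add_atTop_nat 1))
    simpa using this
  rw [← tendsto_add_atTop_iff_nat 1]
  refine h3.congr fun k => ?_
  simp only [G, S]
  rw [Finset.sum_range_succ _ (k + 1), hψw]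
  ring

/-- The lower bound for the terms outside the closed disc. -/
lemma term_large {a b : EuclideanSpace ℂ (Fin n)} (hb : b ≠ 0)
    (hΦ : ∀ l : ℂ, ‖l‖ = 1 → ‖a + l • b‖ = 1)
    (ζ : ℕ → EuclideanSpace ℂ (Fin n))
    (hdense : ∀ v : EuclideanSpace ℂ (Fin n), ‖v‖ = 1 → ∀ ε : ℝ, 0 < ε → ∀ K : ℕ, ∃ k, K ≤ k ∧
      ‖ζ k - v‖ < ε)
    {τ : ℂ} (hτ : ‖τ‖ = 1) {x : ℝ} (hx : 0 < x) (K : ℕ) :
    ∃ k, K ≤ k ∧ 1 ≤ ‖term ζ k (a + ((1 + x : ℝ) * τ) • b)‖ := by
  obtain ⟨hin, hsq⟩ := norm_sq_disc hΦ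
  have hb0 : 0 < ‖b‖ := norm_pos_iff.2 hb
  have hba : inner ℂ b a = 0 := by
    rw [← inner_conj_symm, hin, map_zero]
  set v := a + τ • b with hv
  set z := a + ((1 + x : ℝ) * τ) • b with hz
  have hv1 : ‖v‖ = 1 := hΦ τ hτ
  have hττ : (starRingEnd ℂ) τ * τ = 1 := by
    rw [mul_comm, Complex.mul_conj, Complex.normSq_eq_norm_sq, hτ]; simp
  have hvz : inner ℂ v z = ((1 + x * ‖b‖ ^ 2 : ℝ) : ℂ) := by
    rw [hv, hz, inner_add_left, inner_add_right, inner_add_right, inner_smul_left, inner_smul_left,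
      inner_smul_right, inner_smul_right, hin, hba, inner_self_eq_norm_sq_to_K,
      inner_self_eq_norm_sq_to_K]
    have h1 : ((‖a‖ : ℂ)) ^ 2 = 1 - (‖b‖ : ℂ) ^ 2 := by
      have : ((‖a‖ ^ 2 + ‖b‖ ^ 2 : ℝ) : ℂ) = 1 := by rw [hsq]; simp
      push_cast at this
      linear_combination this
    simp only [Complex.coe_algebraMap]
    rw [h1]
    push_cast
    linear_combination (1 + (x : ℂ)) * (‖b‖ : ℂ) ^ 2 * hττ
  have hz2 : ‖z‖ ≤ 2 + x := by
    have ha1 : ‖a‖ ≤ 1 := by nlinarith [norm_nonneg a]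
    have hb1 : ‖b‖ ≤ 1 := by nlinarith [norm_nonneg b]
    rw [hz]
    refine (norm_add_le _ _).trans ?_
    rw [norm_smul, norm_mul, hτ, mul_one, Complex.norm_real, Real.norm_of_nonneg (by linarith)]
    nlinarith
  set c : ℝ := x * ‖b‖ ^ 2 / 2 with hc
  have hc0 : 0 < c := by positivity
  -- choose `K₀` with `(1+c)^K₀ ≥ e`
  obtain ⟨K₀, hK₀⟩ := pow_unbounded_of_one_lt (Real.exp 1) (show 1 < 1 + c by linarith)
  obtain ⟨k, hk, hkv⟩ := hdense v hv1 (c / (2 + x)) (by positivity) (max K K₀)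
  refine ⟨k, (le_max_left _ _).trans hk, ?_⟩
  have h1 : 1 + c ≤ ‖inner ℂ (ζ k) z‖ := by
    have h2 : ‖inner ℂ (ζ k - v) z‖ ≤ c := by
      refine (norm_inner_le_norm _ _).trans ?_
      calc ‖ζ k - v‖ * ‖z‖ ≤ (c / (2 + x)) * (2 + x) := by gcongr
        _ = c := by field_simp
    rw [inner_sub_left] at h2
    have h3 : ‖inner ℂ v z‖ = 1 + x * ‖b‖ ^ 2 := by
      rw [hvz, Complex.norm_real, Real.norm_of_nonneg (by positivity)]
    have h4 := norm_sub_norm_le (inner ℂ v z) (inner ℂ (ζ k) z)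
    rw [norm_sub_rev, h3] at h4
    rw [hc] at *
    linarith
  unfold term
  rw [norm_mul, Complex.norm_real, Real.norm_of_nonneg (Real.exp_pos _).le, norm_pow]
  have h5 : Real.exp 1 ≤ (1 + c) ^ (s k) := by
    refine hK₀.le.trans (pow_le_pow_right₀ (by linarith) ?_)
    exact (le_max_right _ _).trans (hk.trans (le_s k))
  have h6 : Real.exp (s k : ℝ) ≤ ‖inner ℂ (ζ k) z‖ ^ (m k) := by
    calc Real.exp (s k : ℝ) = (Real.exp 1) ^ (s k) := by rw [← Real.exp_nat_mul, mul_one]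
      _ ≤ ((1 + c) ^ (s k)) ^ (s k) := by gcongr
      _ = (1 + c) ^ (m k) := by rw [← pow_mul, m, sq]
      _ ≤ _ := by gcongr
  calc (1 : ℝ) = Real.exp (-(s k : ℝ)) * Real.exp (s k : ℝ) := by
        rw [← Real.exp_add]; simp
    _ ≤ _ := by gcongr

/-- a sequence running through a dense subset of the sphere infinitely often -/
lemma exists_sequence (hn : 1 ≤ n) : ∃ ζ : ℕ → EuclideanSpace ℂ (Fin n), (∀ k, ‖ζ k‖ = 1) ∧
    ∀ v : EuclideanSpace ℂ (Fin n), ‖v‖ = 1 → ∀ ε : ℝ, 0 < ε → ∀ K : ℕ, ∃ k, K ≤ k ∧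
      ‖ζ k - v‖ < ε := by
  have : Nonempty (sphere (0 : EuclideanSpace ℂ (Fin n)) 1) :=
    ⟨⟨EuclideanSpace.single ⟨0, by omega⟩ 1, by simp⟩⟩
  let d := TopologicalSpace.denseSeq (sphere (0 : EuclideanSpace ℂ (Fin n)) 1)
  have hd : DenseRange d := TopologicalSpace.denseRange_denseSeq _
  refine ⟨fun k => d (Nat.unpair k).1, fun k => by simpa using (d (Nat.unpair k).1).2, ?_⟩
  intro v hv ε hε K
  obtain ⟨j, hj⟩ := hd.exists_dist_lt (⟨v, by simpa using hv⟩ : sphere (0 : EuclideanSpace ℂ (Fin n)) 1) hε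
  refine ⟨Nat.pair j K, Nat.right_le_pair _ _, ?_⟩
  simp only [Nat.unpair_pair]
  rw [← dist_eq_norm, dist_comm]
  exact hj

/-- For every `n ≥ 2` there is a function in `A^∞(B)` (hence in `A(B)`) with property (NB). -/
theorem result (n : ℕ) (hn : 2 ≤ n) : ∃ f : EuclideanSpace ℂ (Fin n) → ℂ,
    ContinuousOn f (closedBall 0 1) ∧ IsAInfty f ∧ HasNB f := by
  obtain ⟨ζ, hζ, hdense⟩ := exists_sequence (n := n) (by omega)
  refine ⟨F ζ, continuousOn_F ζ hζ, isAInfty_F ζ hζ, ?_⟩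
  rintro a b hb hΦ τ hτ ⟨r, hr, h, hh, heq⟩
  obtain ⟨x, hx, hlim⟩ := overconvergence hb hΦ ζ hζ hτ hr hh heq
  have h1 : ∀ᶠ k in atTop, ‖term ζ k (a + ((1 + x : ℝ) * τ) • b)‖ < 1 := by
    have := hlim.norm
    rw [norm_zero] at this
    exact this.eventually (gt_mem_nhds one_pos)
  obtain ⟨K, hK⟩ := eventually_atTop.1 h1
  obtain ⟨k, hk, hk2⟩ := term_large hb hΦ ζ hdense hτ hx K
  exact absurd (hK k hk) (not_lt.2 hk2)

end Pool.Agent.Results.MP_ca9574_an.NaturalBoundary
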